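import Mathlib

set_option autoImplicit false

open Finset

namespace Pool.Agent.Results.MP_93f727_an.ShiftedIdentityFails

/-- The `q`-Pochhammer symbol `(α; q)_n = ∏_{j < n} (1 - α q ^ j)`. -/
def poch {R : Type*} [CommRing R] (α q : R) (n : ℕ) : R := ∏ j ∈ range n, (1 - α * q ^ j)

/-- The coefficient `d_n = (a + b + c) q ^ n + a b c q ^ (n - 1) (1 - q ^ n - q ^ (n + 1))` for
`n ≥ 1`, and `d_0 = a + b + c - a b c`. -/
def dCoeff {R : Type*} [CommRing R] (a b c q : R) : ℕ → R
  | 0 => a + b + c - a * b * c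
  | (n + 1) => (a + b + c) * q ^ (n + 1) + a * b * c * q ^ n * (1 - q ^ (n + 1) - q ^ (n + 2))

/-- The coefficient `f_n = (1 - a b q ^ n) (1 - a c q ^ n) (1 - b c q ^ n)`. -/
def fCoeff {R : Type*} [CommRing R] (a b c q : R) (n : ℕ) : R :=
  (1 - a * b * q ^ n) * (1 - a * c * q ^ n) * (1 - b * c * q ^ n)

/-- The continuous dual `q`-Hahn polynomials `ψ_n (x | a, b, c, q)`:
`ψ_0 = 1`, `ψ_1 = 2 x - d_0`, `ψ_{n+2} = (2 x - d_{n+1}) ψ_{n+1} - (1 - q ^ (n + 1)) f_n ψ_n`. -/
def psi {R : Type*} [CommRing R] (x a b c q : R) : ℕ → R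
  | 0 => 1
  | 1 => 2 * x - dCoeff a b c q 0
  | (n + 2) => (2 * x - dCoeff a b c q (n + 1)) * psi x a b c q (n + 1) -
      (1 - q ^ (n + 1)) * fCoeff a b c q n * psi x a b c q n

/-- The Gauss binomial coefficient. -/
noncomputable def qBinom (q : ℝ) (n i : ℕ) : ℝ := poch q q n / (poch q q i * poch q q (n - i))

/-- The variable `t` of the ring of formal power series. -/
noncomputable abbrev t : PowerSeries ℝ := PowerSeries.X

/-- A real constant as a formal power series in `t`. -/
noncomputable abbrev K (r : ℝ) : PowerSeries ℝ := PowerSeries.C r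

/-- The Askey-Wilson polynomial `AW_n (x | a, b, c, d, q)` with fourth parameter `d = t`, expanded
in powers of `t`. -/
noncomputable def AW (x a b c q : ℝ) (n : ℕ) : PowerSeries ℝ :=
  ∑ i ∈ range (n + 1), K (qBinom q n i * (-a) ^ (n - i) * q ^ ((n - i).choose 2)) *
    (poch (K (b * c * q ^ i)) (K q) (n - i) * poch (K (b * q ^ i) * t) (K q) (n - i) *
      poch (K (c * q ^ i) * t) (K q) (n - i)) *
    (poch (K (a * b * c * q ^ (n + i - 1)) * t) (K q) (n - i))⁻¹ *
    psi (K x) (K b) (K c) t (K q) i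

/-- `G_n (t) = ∑_i t ^ i / (q; q)_i ψ_{i+n} (x | a, b, c, q)`. -/
noncomputable def G (x a b c q : ℝ) (n : ℕ) : PowerSeries ℝ :=
  PowerSeries.mk fun i => psi x a b c q (i + n) / poch q q i

/-- The identity of Q1 for the parameters `x, a, b, c, q, n`:
`G_n (t) = AW_n (x | a, b, c, t, q) / (a t, b t, c t; q)_n * G_0 (t)`. -/
def Identity (x a b c q : ℝ) (n : ℕ) : Prop :=
  G x a b c q n = AW x a b c q n *
    (poch (K a * t) (K q) n * poch (K b * t) (K q) n * poch (K c * t) (K q) n)⁻¹ * G x a b c q 0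

lemma coeff_one_mul' (f g : PowerSeries ℝ) : PowerSeries.coeff 1 (f * g) =
    PowerSeries.constantCoeff f * PowerSeries.coeff 1 g +
      PowerSeries.coeff 1 f * PowerSeries.constantCoeff g := by
  rw [PowerSeries.coeff_mul, Finset.Nat.antidiagonal_succ]
  simp

lemma coeff_one_inv (f : PowerSeries ℝ) (hf : PowerSeries.constantCoeff f = 1) :
    PowerSeries.coeff 1 f⁻¹ = -PowerSeries.coeff 1 f := by
  have h : f * f⁻¹ = 1 := PowerSeries.mul_inv_cancel f (by rw [hf]; exact one_ne_zero)
  have h1 := congrArg (PowerSeries.coeff 1) h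
  rw [coeff_one_mul', hf, PowerSeries.constantCoeff_inv, hf] at h1
  simp only [inv_one, mul_one, one_mul] at h1
  rw [PowerSeries.coeff_one] at h1
  norm_num at h1
  linarith

/-- **Disproof of Q1.** For every `q` with `-1 < q < 1` and all real `a, b, c` with `a b c ≠ 0` the
conjectured identity fails for `n = 1`, at every `x` with `ψ_1 (x) = 2 x - (a + b + c - a b c) ≠ 0`. -/
theorem result (q a b c x : ℝ) (hq1 : -1 < q) (hq2 : q < 1) (habc : a * b * c ≠ 0)
    (hx : 2 * x ≠ a + b + c - a * b * c) : ¬ Identity x a b c q 1 := by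
  intro h
  unfold Identity at h
  have hq : 1 - q ≠ 0 := by linarith
  have hc := congrArg (PowerSeries.coeff 1) h
  have hK0 : ∀ r : ℝ, PowerSeries.constantCoeff (K r) = r := fun r => by simp [K]
  have hK1 : ∀ r : ℝ, PowerSeries.coeff 1 (K r) = 0 := fun r => by
    simp [K]
  have ht0 : PowerSeries.constantCoeff t = (0 : ℝ) := by simp [t]
  have ht1 : PowerSeries.coeff 1 t = (1 : ℝ) := by simp [t]
  have ho1 : PowerSeries.coeff 1 (1 : PowerSeries ℝ) = 0 := by
    rw [PowerSeries.coeff_one]; norm_num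
  have hAW : AW x a b c q 1 = K (-a) * ((1 - K (b * c)) * (1 - K b * t) * (1 - K c * t)) *
      (1 - K (a * b * c) * t)⁻¹ + psi (K x) (K b) (K c) t (K q) 1 := by
    unfold AW
    simp only [Finset.sum_range_succ, Finset.sum_range_zero, zero_add, poch, Finset.prod_range_succ,
      Finset.prod_range_zero, one_mul, pow_zero, mul_one, Nat.sub_self, Nat.sub_zero, pow_one,
      psi]
    have h1 : qBinom q 1 0 = 1 := by
      simp [qBinom, poch, hq]
    have h2 : qBinom q 1 1 = 1 := by
      simp [qBinom, poch, hq]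
    rw [h1, h2]
    simp
  have hpsi : psi (K x) (K b) (K c) t (K q) 1 = 2 * K x - (K b + K c + t - K b * K c * t) := by
    simp [psi, dCoeff]
  have hden : (poch (K a * t) (K q) 1 * poch (K b * t) (K q) 1 * poch (K c * t) (K q) 1) =
      (1 - K a * t) * (1 - K b * t) * (1 - K c * t) := by
    simp [poch]
  have hG00 : PowerSeries.constantCoeff (G x a b c q 0) = 1 := by
    rw [← PowerSeries.coeff_zero_eq_constantCoeff_apply]
    simp [G, psi, poch]
  have hG01 : PowerSeries.coeff 1 (G x a b c q 0) = psi x a b c q 1 / (1 - q) := by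
    simp [G, poch]
  have hG11 : PowerSeries.coeff 1 (G x a b c q 1) = psi x a b c q 2 / (1 - q) := by
    simp [G, poch]
  have hd0 : PowerSeries.constantCoeff ((1 - K a * t) * (1 - K b * t) * (1 - K c * t)) = (1 : ℝ) := by
    simp only [map_mul, map_sub, map_one, ht0]
    ring
  have hd1 : PowerSeries.coeff 1 ((1 - K a * t) * (1 - K b * t) * (1 - K c * t)) =
      -(a + b + c) := by
    simp only [coeff_one_mul', map_mul, map_sub, map_one, hK0, hK1, ht0, ht1, ho1]
    ring
  have he0 : PowerSeries.constantCoeff (1 - K (a * b * c) * t) = (1 : ℝ) := by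
    simp only [map_mul, map_sub, map_one, ht0]
    ring
  have he1 : PowerSeries.coeff 1 (1 - K (a * b * c) * t) = -(a * b * c) := by
    simp only [coeff_one_mul', map_sub, hK0, hK1, ht0, ht1, ho1]
    ring
  have h2K : (2 : PowerSeries ℝ) = K 2 := (map_ofNat PowerSeries.C 2).symm
  have hV0 : PowerSeries.constantCoeff (1 - K (a * b * c) * t)⁻¹ = (1 : ℝ) := by
    rw [PowerSeries.constantCoeff_inv, he0, inv_one]
  have hV1 : PowerSeries.coeff 1 (1 - K (a * b * c) * t)⁻¹ = a * b * c := by
    rw [coeff_one_inv _ he0, he1, neg_neg]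
  have hW0 : PowerSeries.constantCoeff ((1 - K a * t) * (1 - K b * t) * (1 - K c * t))⁻¹ =
      (1 : ℝ) := by
    rw [PowerSeries.constantCoeff_inv, hd0, inv_one]
  have hW1 : PowerSeries.coeff 1 ((1 - K a * t) * (1 - K b * t) * (1 - K c * t))⁻¹ =
      a + b + c := by
    rw [coeff_one_inv _ hd0, hd1, neg_neg]
  have hp1 : psi x a b c q 1 = 2 * x - (a + b + c - a * b * c) := by
    simp [psi, dCoeff]
  have hp2 : psi x a b c q 2 = (2 * x - ((a + b + c) * q + a * b * c * (1 - q - q ^ 2))) *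
      (2 * x - (a + b + c - a * b * c)) - (1 - q) * ((1 - a * b) * (1 - a * c) * (1 - b * c)) := by
    simp [psi, dCoeff, fCoeff]
  rw [hG11, hAW, hpsi, hden, coeff_one_mul', coeff_one_mul', hG01, hG00, hW0, hW1] at hc
  generalize (1 - K (a * b * c) * t)⁻¹ = V at hc hV0 hV1
  simp only [coeff_one_mul', map_add, map_mul, map_sub, map_one, hK0, hK1, ht0, ht1, ho1, h2K,
    hV0, hV1, hW0] at hc
  rw [hp1, hp2] at hc
  have key : (1 - q) * (a * b * c * (2 + q) * (2 * x - (a + b + c - a * b * c))) = 0 := by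
    field_simp at hc
    linear_combination -hc
  rcases mul_eq_zero.mp key with h1 | h1
  · exact hq h1
  · rcases mul_eq_zero.mp h1 with h2 | h2
    · rcases mul_eq_zero.mp h2 with h3 | h3
      · exact habc h3
      · linarith
    · exact hx (by linarith)

end Pool.Agent.Results.MP_93f727_an.ShiftedIdentityFails
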